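import Pool.Agent.Helper392_GT.MainD
import Pool.Agent.Helper392_GT.Defs5
import Pool.Agent.Helper392_GT.Density2

set_option autoImplicit false

/-! Bounded codimension in terms of dimensions. -/

namespace Pool.Agent.U901.GTB

open Pool.Agent.Helper392_GT Module

universe u

attribute [local instance 100] LieRing.ofAssociativeRing

variable {k : Type u} [Field k]

/-- linear algebra: if the common kernel of `N` functionals on `G` is contained in `A + W`, then the
images of `G` and `A` modulo `W` differ in dimension by at most `N`. -/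
theorem finrank_image_le {V : Type*} [AddCommGroup V] [Module k V] (G A W : Submodule k V)
    [FiniteDimensional k G] (hA : A ≤ G) {N : ℕ} (L : V →ₗ[k] (Fin N → k))
    (h : ∀ ψ ∈ G, L ψ = 0 → ∃ φ ∈ A, ψ - φ ∈ W) :
    finrank k (G.map W.mkQ) ≤ finrank k (A.map W.mkQ) + N := by
  classical
  have hfA : FiniteDimensional k A := Submodule.finiteDimensional_of_le hA
  let G0 : Submodule k V := G ⊓ LinearMap.ker L
  have hfG0 : FiniteDimensional k G0 := Submodule.finiteDimensional_of_le (inf_le_left : G0 ≤ G)
  -- a complement of `G0` in `G`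
  obtain ⟨C', hC'⟩ := Submodule.exists_isCompl (G0.comap G.subtype)
  let C : Submodule k V := C'.map G.subtype
  have hCG : C ≤ G := by
    rintro _ ⟨x, -, rfl⟩
    exact x.2
  have hfC : FiniteDimensional k C := Submodule.finiteDimensional_of_le hCG
  have hsup : G ≤ G0 ⊔ C := by
    intro x hx
    have h1 : (⟨x, hx⟩ : G) ∈ G0.comap G.subtype ⊔ C' := by
      rw [hC'.sup_eq_top]; trivial
    obtain ⟨a, ha, c, hc, hac⟩ := Submodule.mem_sup.1 h1
    refine Submodule.mem_sup.2 ⟨a.1, ha, c.1, ⟨c, hc, rfl⟩, ?_⟩
    exact congrArg Subtype.val hac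
  have hCN : finrank k C ≤ N := by
    have hinj : Function.Injective (L.domRestrict C) := by
      rw [← LinearMap.ker_eq_bot, LinearMap.ker_eq_bot']
      rintro ⟨x, hx⟩ hLx
      obtain ⟨c, hc, hcx⟩ := hx
      have h1 : c ∈ G0.comap G.subtype := by
        refine ⟨c.2, ?_⟩
        have : L x = 0 := hLx
        rw [← hcx] at this
        exact this
      have h2 : c ∈ (G0.comap G.subtype ⊓ C' : Submodule k G) := ⟨h1, hc⟩
      rw [hC'.inf_eq_bot] at h2
      have h3 : c = 0 := h2
      ext
      simp only
      rw [← hcx, h3]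
      rfl
    have := LinearMap.finrank_le_finrank_of_injective hinj
    rwa [Module.finrank_fin_fun] at this
  have hle : G.map W.mkQ ≤ A.map W.mkQ ⊔ C.map W.mkQ := by
    refine (Submodule.map_mono hsup).trans ?_
    rw [Submodule.map_sup]
    refine sup_le_sup_right ?_ _
    rintro _ ⟨ψ, hψ, rfl⟩
    obtain ⟨φ, hφ, hw⟩ := h ψ hψ.1 hψ.2
    refine ⟨φ, hφ, ?_⟩
    exact ((Submodule.Quotient.eq W).2 hw).symm
  have hfs : FiniteDimensional k (A.map W.mkQ ⊔ C.map W.mkQ : Submodule k (V ⧸ W)) := inferInstance
  calc finrank k (G.map W.mkQ) ≤ finrank k (A.map W.mkQ ⊔ C.map W.mkQ : Submodule k (V ⧸ W)) :=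
        Submodule.finrank_mono hle
    _ ≤ finrank k (A.map W.mkQ) + finrank k (C.map W.mkQ) := by
        have := Submodule.finrank_add_le_finrank_add_finrank (A.map W.mkQ) (C.map W.mkQ)
        exact this
    _ ≤ finrank k (A.map W.mkQ) + N := by
        have := Submodule.finrank_map_le W.mkQ C
        omega

/-- the bound is at most `C(m, 3)` -/
theorem Nn_le (n r : ℕ) : Nn n r ≤ (r + 1).choose 3 := by
  induction r with
  | zero => simp [Nn]
  | succ r ih =>
    rw [Nn_succ]
    have h1 : (r + 1 + 1).choose 3 = (r + 1).choose 2 + (r + 1).choose 3 := Nat.choose_succ_succ' _ _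
    have h2 : (r + 1).choose 2 = r * (r + 1) / 2 := by
      rw [Nat.choose_two_right, Nat.add_sub_cancel, mul_comm]
    rw [h1, h2]
    split_ifs <;> omega

end Pool.Agent.U901.GTB
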