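import Pool.Agent.Helper392_GT.Defs5

set_option autoImplicit false

/-!
# The quotients of the free Lie algebra by `[L, …, [L, L'']…] + [L', L'']`
-/

namespace Pool.Agent.U901.GTB

open Pool.Agent.Helper392_GT

universe u

/-- The ideal `W_m = [L, [L, …, [L, L'']…]] + [L', L'']` of the free Lie algebra `L` on two
generators, with `m` brackets with `L`; here `L' = [L, L]` and `L'' = [L', L']`. -/
noncomputable def idealW (k : Type u) [CommRing k] (m : ℕ) : LieIdeal k (F2 k) :=
  ((fun N : LieIdeal k (F2 k) => ⁅(⊤ : LieIdeal k (F2 k)), N⁆)^[m]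
      (LieAlgebra.derivedSeries k (F2 k) 2)) ⊔
    ⁅LieAlgebra.derivedSeries k (F2 k) 1, LieAlgebra.derivedSeries k (F2 k) 2⁆

/-- The dimension of the image in `L / W_m` of the weight `n` part of the subspace `V` of `L`. -/
noncomputable def dimW {k : Type u} [Field k] (V : Submodule k (F2 k)) (m n : ℕ) : ℕ :=
  Module.finrank k ((V ⊓ wt k n).map (Submodule.mkQ (idealW k m).toSubmodule))

/-- The sum of the triangular numbers `i (i + 1) / 2` over the `i < m - 1` of the same parity
as `n`. -/
def excess (m n : ℕ) : ℕ :=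
  ∑ i ∈ (Finset.range (m - 1)).filter (fun i => i % 2 = n % 2), i * (i + 1) / 2

end Pool.Agent.U901.GTB
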