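import Pool.Agent.U901.GTB.A
import Pool.Agent.U901.GTB.Defs

set_option autoImplicit false

namespace Pool.Agent.U901.GTB

open Pool.Agent.Helper392_GT Module

universe u

attribute [local instance 100] LieRing.ofAssociativeRing

theorem idealW_eq (k : Type u) [CommRing k] (m : ℕ) :
    idealW k m = LieSubmodule.lcs m (D2 k) ⊔ DN k := rfl

theorem excess_eq (m n : ℕ) : excess m n = Nn n (m - 1) := by
  rw [excess, Nn, Finset.sum_filter]

theorem excess_le (m n : ℕ) : excess m n ≤ m.choose 3 := by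
  rw [excess_eq]
  rcases Nat.eq_zero_or_pos m with rfl | hm
  · simp [Nn]
  · have := Nn_le n (m - 1)
    rwa [Nat.sub_add_cancel hm] at this

theorem main {k : Type u} [Field k] [CharZero k] (𝔤 : Submodule k (F2 k)) (hgrt : 𝔤 ≤ grtSub k)
    (hbracket : IharaClosed 𝔤) (hsoule : HasSoule 𝔤) (m n : ℕ) :
    Module.Finite k (wt k n) ∧ dimW 𝔤 m n ≤ dimW (grtSub k) m n ∧
      dimW (grtSub k) m n ≤ dimW 𝔤 m n + excess m n ∧ excess m n ≤ m.choose 3 := by
  have hfw : Module.Finite k (wt k n) := inferInstance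
  have hfG : FiniteDimensional k (grtSub k ⊓ wt k n : Submodule k (F2 k)) :=
    Submodule.finiteDimensional_of_le (S₂ := wt k n) inf_le_right
  refine ⟨hfw, ?_, ?_, excess_le m n⟩
  · have hfin : Module.Finite k ((grtSub k ⊓ wt k n).map
        (Submodule.mkQ (idealW k m).toSubmodule)) := Module.Finite.map _ _
    exact Submodule.finrank_mono (Submodule.map_mono (inf_le_inf_right _ hgrt))
  · obtain ⟨L, hL⟩ := bounded_codim 𝔤 hgrt
      (fun σ hσ τ hτ D E h1 h2 h3 h4 => hbracket σ hσ τ hτ D E ⟨h1, h2⟩ ⟨h3, h4⟩) hsoule n m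
    rw [excess_eq]
    refine finrank_image_le (grtSub k ⊓ wt k n) (𝔤 ⊓ wt k n) (idealW k m).toSubmodule
      (inf_le_inf_right _ hgrt) L ?_
    rintro ψ ⟨h1, h2⟩ h0
    obtain ⟨φ, h3, h4, h5⟩ := hL ψ h1 h2 h0
    exact ⟨φ, ⟨h3, h4⟩, h5⟩

end Pool.Agent.U901.GTB
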